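import Pool.Agent.Helper5.ST.GoalsA

/-! Packet DK: the Davis-Kahan estimate. -/

set_option autoImplicit false

namespace Pool.Agent.Helper94.ST

open scoped InnerProductSpace

universe u

section

variable {V : Type u} [NormedAddCommGroup V] [InnerProductSpace ℝ V]

/-- Numerical radius bound for symmetric operators. -/
theorem norm_le_of_quad (S : V →ₗ[ℝ] V) (hS : ∀ v w, ⟪S v, w⟫_ℝ = ⟪v, S w⟫_ℝ) (ε : ℝ)
    (hε : 0 ≤ ε) (h : ∀ v, |⟪S v, v⟫_ℝ| ≤ ε * ‖v‖ ^ 2) (v : V) : ‖S v‖ ≤ ε * ‖v‖ := by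
  rcases (norm_nonneg (S v)).eq_or_lt with h0 | h0
  · rw [← h0]; positivity
  have hv0 : 0 < ‖v‖ := by
    rw [norm_pos_iff]
    rintro rfl
    simp at h0
  set c : ℝ := ‖v‖ / ‖S v‖ with hc
  set w : V := c • S v with hw
  have hwn : ‖w‖ = ‖v‖ := by
    rw [hw, norm_smul, hc, Real.norm_eq_abs, abs_of_pos (by positivity)]
    field_simp
  have h1 : ⟪S v, w⟫_ℝ = ‖v‖ * ‖S v‖ := by
    rw [hw, inner_smul_right, real_inner_self_eq_norm_sq, hc]
    field_simp
  have h2 : 4 * ⟪S v, w⟫_ℝ = ⟪S (v + w), v + w⟫_ℝ - ⟪S (v - w), v - w⟫_ℝ := by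
    have e1 : ⟪S w, v⟫_ℝ = ⟪S v, w⟫_ℝ := by rw [hS, real_inner_comm]
    simp only [map_add, map_sub, inner_add_left, inner_add_right, inner_sub_left, inner_sub_right]
    linarith
  have h3 := (abs_le.1 (h (v + w))).2
  have h4 := (abs_le.1 (h (v - w))).1
  have h5 := parallelogram_law_with_norm ℝ v w
  have h6 : ‖v + w‖ ^ 2 + ‖v - w‖ ^ 2 = 4 * ‖v‖ ^ 2 := by
    rw [hwn] at h5
    nlinarith
  have h7 : 4 * (‖v‖ * ‖S v‖) ≤ ε * (4 * ‖v‖ ^ 2) := by
    rw [← h1, h2, ← h6]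
    linarith
  have h8 : ‖v‖ * ‖S v‖ ≤ ‖v‖ * (ε * ‖v‖) := by nlinarith
  exact le_of_mul_le_mul_left h8 hv0

/-- Cauchy-Schwarz for a positive semidefinite form. -/
theorem psd_cs (T : V →ₗ[ℝ] V) (hT : ∀ v w, ⟪T v, w⟫_ℝ = ⟪v, T w⟫_ℝ)
    (h : ∀ v, 0 ≤ ⟪T v, v⟫_ℝ) (f g : V) : ⟪T f, g⟫_ℝ ^ 2 ≤ ⟪T f, f⟫_ℝ * ⟪T g, g⟫_ℝ := by
  have h0 : ∀ x : ℝ, 0 ≤ ⟪T g, g⟫_ℝ * (x * x) + (2 * ⟪T f, g⟫_ℝ) * x + ⟪T f, f⟫_ℝ := by
    intro x
    have h1 := h (f + x • g)
    have e1 : ⟪T g, f⟫_ℝ = ⟪T f, g⟫_ℝ := by rw [hT, real_inner_comm]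
    simp only [map_add, map_smul, inner_add_left, inner_add_right, inner_smul_left,
      inner_smul_right, e1] at h1
    simp only [conj_trivial] at h1
    nlinarith
  have h3 := discrim_le_zero h0
  unfold discrim at h3
  nlinarith

end

theorem dK : Pool.Agent.Helper5.ST.SDK.{u} := by
  intro V _ _ E _ T U θ δ ε₁ hT hpos hTE hE hEp hθ hδ hε hU
  -- (1)
  set S : V →ₗ[ℝ] V :=
    (U.symm.toLinearEquiv : V →ₗ[ℝ] V) ∘ₗ T ∘ₗ (U.toLinearEquiv : V →ₗ[ℝ] V) - T with hSd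
  have hS : ∀ v, S v = U.symm (T (U v)) - T v := fun v => rfl
  have hUi : ∀ v w, ⟪U.symm v, w⟫_ℝ = ⟪v, U w⟫_ℝ := by
    intro v w
    rw [← U.inner_map_map, U.apply_symm_apply]
  have hUi' : ∀ v w, ⟪v, U.symm w⟫_ℝ = ⟪U v, w⟫_ℝ := by
    intro v w
    rw [real_inner_comm, hUi, real_inner_comm]
  have hSs : ∀ v w, ⟪S v, w⟫_ℝ = ⟪v, S w⟫_ℝ := by
    intro v w
    rw [hS, hS, inner_sub_left, inner_sub_right, hUi, hUi', hT v w, hT (U v) (U w)]
  have hSq : ∀ v, |⟪S v, v⟫_ℝ| ≤ ε₁ * ‖v‖ ^ 2 := by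
    intro v
    rw [hS, inner_sub_left, hUi]
    exact hU v
  have hSn : ∀ v, ‖S v‖ ≤ ε₁ * ‖v‖ := norm_le_of_quad S hSs ε₁ hε hSq
  have hUS : ∀ v, U (S v) = T (U v) - U (T v) := by
    intro v
    rw [hS, map_sub, U.apply_symm_apply]
  -- (2)
  have hTp : ∀ f ∈ Eᗮ, T f ∈ Eᗮ := by
    intro f hf
    rw [Submodule.mem_orthogonal] at hf ⊢
    intro x hx
    rw [← hT]
    exact hf _ (hTE x hx)
  have hTn : ∀ f ∈ Eᗮ, ‖T f‖ ≤ θ * ‖f‖ := by
    intro f hf
    have h1 := psd_cs T hT hpos f (T f)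
    rw [real_inner_self_eq_norm_sq] at h1
    have h2 := hEp f hf
    have h3 := hEp (T f) (hTp f hf)
    have h4 : (‖T f‖ ^ 2) ^ 2 ≤ (θ * ‖f‖ ^ 2) * (θ * ‖T f‖ ^ 2) :=
      h1.trans (mul_le_mul h2 h3 (hpos _) (by positivity))
    rcases (norm_nonneg (T f)).eq_or_lt with h0 | h0
    · rw [← h0]; positivity
    · have h5 : ‖T f‖ ^ 2 * ‖T f‖ ^ 2 ≤ (θ * ‖f‖) ^ 2 * ‖T f‖ ^ 2 := by nlinarith
      have h6 := le_of_mul_le_mul_right h5 (by positivity)
      exact (pow_le_pow_iff_left₀ (norm_nonneg _) (by positivity) two_ne_zero).1 h6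
  -- (3)
  have hθδ : 0 < θ + δ := by linarith
  have hsurj : ∀ x ∈ E, ∃ y ∈ E, T y = x ∧ (θ + δ) * ‖y‖ ≤ ‖x‖ := by
    intro x hx
    have hinj : Function.Injective (T.restrict hTE) := by
      rw [← LinearMap.ker_eq_bot, LinearMap.ker_eq_bot']
      intro v hv
      have h1 : T (v : V) = 0 := congrArg Subtype.val hv
      have h2 := hE v v.2
      rw [h1, inner_zero_left] at h2
      have h3 : ‖(v : V)‖ ^ 2 ≤ 0 := by
        by_contra hcon
        rw [not_le] at hcon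
        have := mul_pos hθδ hcon
        linarith
      have h4 : ‖(v : V)‖ = 0 := by nlinarith [norm_nonneg (v : V)]
      exact Subtype.ext (norm_eq_zero.1 h4)
    have hsj := LinearMap.injective_iff_surjective.1 hinj
    obtain ⟨y, hy⟩ := hsj ⟨x, hx⟩
    have hy' : T (y : V) = x := congrArg Subtype.val hy
    refine ⟨y, y.2, hy', ?_⟩
    have h1 := hE y y.2
    rw [hy'] at h1
    have h2 := real_inner_le_norm x (y : V)
    rcases (norm_nonneg (y : V)).eq_or_lt with h0 | h0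
    · rw [← h0, mul_zero]; exact norm_nonneg _
    · have h3 : ((θ + δ) * ‖(y : V)‖) * ‖(y : V)‖ ≤ ‖x‖ * ‖(y : V)‖ := by nlinarith
      exact le_of_mul_le_mul_right h3 h0
  -- (4)
  have hq : ∀ z, z - E.starProjection z ∈ Eᗮ := fun z => E.sub_starProjection_mem_orthogonal z
  have hqn : ∀ z, ‖z - E.starProjection z‖ ≤ ‖z‖ := by
    intro z
    have h1 := Submodule.norm_sq_eq_add_norm_sq_starProjection z E
    rw [Submodule.starProjection_orthogonal_val] at h1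
    have h2 : ‖z - E.starProjection z‖ ^ 2 ≤ ‖z‖ ^ 2 := by
      rw [h1]
      have := sq_nonneg ‖E.starProjection z‖
      linarith
    exact (pow_le_pow_iff_left₀ (norm_nonneg _) (norm_nonneg _) two_ne_zero).1 h2
  have hqT : ∀ z, T z - E.starProjection (T z) = T (z - E.starProjection z) := by
    intro z
    have h1 : E.starProjection (T z) = T (E.starProjection z) := by
      apply Submodule.eq_starProjection_of_mem_orthogonal
      · exact hTE _ (E.starProjection_apply_mem z)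
      · rw [← map_sub]
        exact hTp _ (hq z)
    rw [h1, map_sub]
  set X : E →L[ℝ] V := (ContinuousLinearMap.id ℝ V - E.starProjection) ∘L
    ((U.toContinuousLinearEquiv : V →L[ℝ] V) ∘L E.subtypeL) with hX
  have hXa : ∀ v : E, X v = U (v : V) - E.starProjection (U (v : V)) := fun v => rfl
  set N : ℝ := ‖X‖ with hN
  have hN0 : 0 ≤ N := norm_nonneg X
  have hXN : ∀ v : V, v ∈ E → ‖U v - E.starProjection (U v)‖ ≤ N * ‖v‖ := by
    intro v hv
    have := X.le_opNorm ⟨v, hv⟩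
    rw [hXa] at this
    exact this
  have hbound : N ≤ (θ * N + ε₁) / (θ + δ) := by
    apply ContinuousLinearMap.opNorm_le_bound
    · positivity
    · intro x
      rw [hXa]
      obtain ⟨y, hy, hyx, hyn⟩ := hsurj x x.2
      have e1 : U (x : V) = T (U y) - U (S y) := by
        rw [hUS, hyx]
        abel
      have e2 : U (x : V) - E.starProjection (U (x : V)) =
          T (U y - E.starProjection (U y)) - (U (S y) - E.starProjection (U (S y))) := by
        rw [e1, map_sub, ← hqT]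
        abel
      rw [e2]
      have h1 : ‖T (U y - E.starProjection (U y))‖ ≤ θ * (N * ‖y‖) :=
        (hTn _ (hq _)).trans (mul_le_mul_of_nonneg_left (hXN y hy) hθ)
      have h2 : ‖U (S y) - E.starProjection (U (S y))‖ ≤ ε₁ * ‖y‖ := by
        refine (hqn _).trans ?_
        rw [U.norm_map]
        exact hSn y
      have h3 : ‖y‖ ≤ ‖(x : V)‖ / (θ + δ) := by
        rw [le_div_iff₀ hθδ, mul_comm]
        exact hyn
      calc ‖T (U y - E.starProjection (U y)) - (U (S y) - E.starProjection (U (S y)))‖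
          ≤ θ * (N * ‖y‖) + ε₁ * ‖y‖ := (norm_sub_le _ _).trans (add_le_add h1 h2)
        _ = (θ * N + ε₁) * ‖y‖ := by ring
        _ ≤ (θ * N + ε₁) * (‖(x : V)‖ / (θ + δ)) :=
            mul_le_mul_of_nonneg_left h3 (by positivity)
        _ = (θ * N + ε₁) / (θ + δ) * ‖x‖ := by
            rw [Submodule.coe_norm]; ring
  rw [le_div_iff₀ hθδ] at hbound
  have hNδ : N ≤ ε₁ / δ := by
    rw [le_div_iff₀ hδ]
    linarith
  intro v hv
  exact (hXN v hv).trans (mul_le_mul_of_nonneg_right hNδ (norm_nonneg _))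

end Pool.Agent.Helper94.ST
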