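import Pool.Agent.Helper5.ST.GoalsA

/-! Packet GR: linear growth of the energy along the walk. -/

set_option autoImplicit false

namespace Pool.Agent.Helper94.ST

open Pool.Agent.Helper5.Gap Pool.Agent.Helper5.ST Pool.Agent.Helper5.ST.Walk
open scoped InnerProductSpace

universe u

section proj

variable {V : Type u} [NormedAddCommGroup V] [InnerProductSpace ℝ V] (E : Submodule ℝ V)
  [FiniteDimensional ℝ E]

theorem norm_sq_split (z : V) :
    ‖z‖ ^ 2 = ‖E.starProjection z‖ ^ 2 + ‖z - E.starProjection z‖ ^ 2 := by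
  have h1 := Submodule.norm_sq_eq_add_norm_sq_starProjection z E
  rw [Submodule.starProjection_orthogonal_val] at h1
  exact h1

theorem norm_q_le (z : V) : ‖z - E.starProjection z‖ ≤ ‖z‖ := by
  have h2 : ‖z - E.starProjection z‖ ^ 2 ≤ ‖z‖ ^ 2 := by
    rw [norm_sq_split E z]
    have := sq_nonneg ‖E.starProjection z‖
    linarith
  exact (pow_le_pow_iff_left₀ (norm_nonneg _) (norm_nonneg _) two_ne_zero).1 h2

theorem norm_P_le (z : V) : ‖E.starProjection z‖ ≤ ‖z‖ := Submodule.norm_starProjection_apply_le E z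

theorem inner_P (z x : V) (hx : x ∈ E) : ⟪E.starProjection z, x⟫_ℝ = ⟪z, x⟫_ℝ := by
  rw [Submodule.inner_starProjection_left_eq_right, Submodule.starProjection_eq_self_iff.2 hx]

end proj

section walk

variable {G : Type u} [Group G] (w : Walk G) {V : Type u} [NormedAddCommGroup V]
  [InnerProductSpace ℝ V] (π : G →* (V ≃ₗᵢ[ℝ] V)) (E : Submodule ℝ V) [FiniteDimensional ℝ E]

theorem letter {x : G} (h : x ∈ w.X ∨ x⁻¹ ∈ w.X) : ∃ i, x = w.s i := by
  rcases h with ⟨i, hi⟩ | ⟨i, hi⟩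
  · exact ⟨i, hi.symm⟩
  · refine ⟨w.inv i, ?_⟩
    rw [w.s_inv, hi, _root_.inv_inv]

theorem inv_list {ε : ℝ} (hε : 0 ≤ ε)
    (hinv : ∀ i, ∀ x ∈ E, ‖π (w.s i) x - E.starProjection (π (w.s i) x)‖ ≤ ε * ‖x‖)
    (l : List G) (hl : ∀ x ∈ l, x ∈ w.X ∨ x⁻¹ ∈ w.X) (x : V) (hx : x ∈ E) :
    ‖π l.prod x - E.starProjection (π l.prod x)‖ ≤ l.length * ε * ‖x‖ := by
  induction l with
  | nil =>
    rw [List.prod_nil, rep_one, Submodule.starProjection_eq_self_iff.2 hx, sub_self, norm_zero]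
    simp
  | cons y l ih =>
    obtain ⟨i, rfl⟩ := letter w (hl y List.mem_cons_self)
    have h1 := ih (fun z hz => hl z (List.mem_cons_of_mem _ hz))
    rw [List.prod_cons, rep_mul]
    set z := π l.prod x with hz
    have hzn : ‖z‖ = ‖x‖ := norm_rep π _ _
    have e1 : π (w.s i) z - E.starProjection (π (w.s i) z) =
        (π (w.s i) (E.starProjection z) - E.starProjection (π (w.s i) (E.starProjection z))) +
        (π (w.s i) (z - E.starProjection z) -
          E.starProjection (π (w.s i) (z - E.starProjection z))) := by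
      rw [map_sub, map_sub]
      abel
    rw [e1]
    have h2 : ‖π (w.s i) (E.starProjection z) -
        E.starProjection (π (w.s i) (E.starProjection z))‖ ≤ ε * ‖x‖ := by
      refine (hinv i _ (E.starProjection_apply_mem z)).trans ?_
      rw [← hzn]
      exact mul_le_mul_of_nonneg_left (norm_P_le E z) hε
    have h3 : ‖π (w.s i) (z - E.starProjection z) -
        E.starProjection (π (w.s i) (z - E.starProjection z))‖ ≤ l.length * ε * ‖x‖ := by
      refine (norm_q_le E _).trans ?_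
      rw [norm_rep]
      exact h1
    refine (norm_add_le _ _).trans ((add_le_add h2 h3).trans (le_of_eq ?_))
    rw [List.length_cons]
    push_cast
    ring

theorem inv_ball {ε : ℝ} (hε : 0 ≤ ε)
    (hinv : ∀ i, ∀ x ∈ E, ‖π (w.s i) x - E.starProjection (π (w.s i) x)‖ ≤ ε * ‖x‖)
    {j : ℕ} {g : G} (hg : g ∈ ball w.X j) (x : V) (hx : x ∈ E) :
    ‖π g x - E.starProjection (π g x)‖ ≤ j * ε * ‖x‖ := by
  obtain ⟨l, hl, hlx, rfl⟩ := hg
  refine (inv_list w π E hε hinv l hlx x hx).trans ?_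
  have : (l.length : ℝ) ≤ j := by exact_mod_cast hl
  gcongr

theorem inv_ball' {ε : ℝ} (hε : 0 ≤ ε)
    (hinv : ∀ i, ∀ x ∈ E, ‖π (w.s i) x - E.starProjection (π (w.s i) x)‖ ≤ ε * ‖x‖)
    {j : ℕ} {g : G} (hg : g ∈ ball w.X j) (y : V) (hy : y ∈ Eᗮ) :
    ‖E.starProjection (π g y)‖ ≤ j * ε * ‖y‖ := by
  set x := E.starProjection (π g y) with hx
  have hxE : x ∈ E := E.starProjection_apply_mem _
  have h1 : ‖x‖ ^ 2 = ⟪y, π g⁻¹ x - E.starProjection (π g⁻¹ x)⟫_ℝ := by
    rw [inner_sub_right, Submodule.inner_left_of_mem_orthogonal (E.starProjection_apply_mem _) hy,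
      sub_zero, ← inner_rep_left, ← inner_P E _ x hxE, ← hx, real_inner_self_eq_norm_sq]
  have h2 := inv_ball w π E hε hinv (inv_mem_ball hg) x hxE
  have h3 : ‖x‖ ^ 2 ≤ ‖y‖ * (j * ε * ‖x‖) := by
    rw [h1]
    exact (real_inner_le_norm _ _).trans (mul_le_mul_of_nonneg_left h2 (norm_nonneg _))
  rcases (norm_nonneg x).eq_or_lt with h0 | h0
  · rw [← h0]; positivity
  · have h4 : ‖x‖ * ‖x‖ ≤ (j * ε * ‖y‖) * ‖x‖ := by nlinarith
    exact le_of_mul_le_mul_right h4 h0

theorem energy_point {ε : ℝ} (hε : 0 ≤ ε)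
    (hinv : ∀ i, ∀ x ∈ E, ‖π (w.s i) x - E.starProjection (π (w.s i) x)‖ ≤ ε * ‖x‖)
    {j : ℕ} {g : G} (hg : g ∈ ball w.X j) (b : V) :
    (1 - (j * ε) ^ 2) * ‖E.starProjection b‖ ^ 2 - 2 * (j * ε) * ‖b‖ ^ 2 ≤
      ‖E.starProjection (π g b)‖ ^ 2 := by
  set x := E.starProjection (π g (E.starProjection b)) with hx
  set y := E.starProjection (π g (b - E.starProjection b)) with hy
  have e1 : E.starProjection (π g b) = x + y := by
    rw [hx, hy, ← map_add, ← map_add]
    congr 2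
    abel
  have h1 : ‖x‖ ^ 2 + 2 * ⟪x, y⟫_ℝ + ‖y‖ ^ 2 = ‖x + y‖ ^ 2 := (norm_add_sq_real x y).symm
  have h2 : ‖E.starProjection b‖ ^ 2 = ‖x‖ ^ 2 +
      ‖π g (E.starProjection b) - E.starProjection (π g (E.starProjection b))‖ ^ 2 := by
    rw [← norm_rep π g (E.starProjection b), norm_sq_split E (π g (E.starProjection b))]
  have h3 := inv_ball w π E hε hinv hg (E.starProjection b) (E.starProjection_apply_mem _)
  have h3' : ‖π g (E.starProjection b) - E.starProjection (π g (E.starProjection b))‖ ^ 2 ≤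
      (j * ε * ‖E.starProjection b‖) ^ 2 := pow_le_pow_left₀ (norm_nonneg _) h3 2
  have h4 : ‖y‖ ≤ j * ε * ‖b‖ := by
    refine (inv_ball' w π E hε hinv hg _ (E.sub_starProjection_mem_orthogonal b)).trans ?_
    exact mul_le_mul_of_nonneg_left (norm_q_le E b) (by positivity)
  have h5 : ‖x‖ ≤ ‖b‖ := by
    refine (norm_P_le E _).trans ?_
    rw [norm_rep]
    exact norm_P_le E b
  have h6 := (abs_le.1 (abs_real_inner_le_norm x y)).1
  have h7 : ‖x‖ * ‖y‖ ≤ ‖b‖ * (j * ε * ‖b‖) :=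
    mul_le_mul h5 h4 (norm_nonneg _) (norm_nonneg _)
  rw [e1, ← h1]
  nlinarith [sq_nonneg ‖y‖]

end walk

theorem gr (hMom : Pool.Agent.Helper5.ST.SMom.{u}) : Pool.Agent.Helper5.ST.SGr.{u} := by
  intro G _ w V _ _ π ξ τ hτ hξ E _ ε hε hinv hen m hm1 hm2
  obtain ⟨-, hM2, hM3, hM4, -⟩ := hMom G w V π ξ τ hτ hξ
  set b := coc π ξ with hb
  set c : V := ∑ i, w.p i • b (w.s i) with hc
  have hk := w.k1
  -- the energy gained at a point
  have hgain : ∀ j : ℕ, j ≤ m → ∀ g ∈ ball w.X j,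
      67 / 100 ≤ ∑ i, w.p i * ‖E.starProjection (π g (b (w.s i)))‖ ^ 2 := by
    intro j hj g hg
    have hjm : (j : ℝ) * ε ≤ 1 / 100 := by
      have h1 : (j : ℝ) ≤ m := by exact_mod_cast hj
      have h2 : (j : ℝ) * ε ≤ m * ε := mul_le_mul_of_nonneg_right h1 hε
      have h3 : (m : ℝ) * ε ≤ m * ε * w.k := le_mul_of_one_le_right (by positivity) hk
      linarith
    have hj0 : 0 ≤ (j : ℝ) * ε := by positivity
    have h1 : ∑ i, w.p i * ((1 - (j * ε) ^ 2) * ‖E.starProjection (b (w.s i))‖ ^ 2 -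
        2 * (j * ε) * ‖b (w.s i)‖ ^ 2) ≤
        ∑ i, w.p i * ‖E.starProjection (π g (b (w.s i)))‖ ^ 2 :=
      Finset.sum_le_sum fun i _ => mul_le_mul_of_nonneg_left
        (energy_point w π E hε hinv hg _) (w.p_nonneg i)
    have h2 : ∑ i, w.p i * ((1 - (j * ε) ^ 2) * ‖E.starProjection (b (w.s i))‖ ^ 2 -
        2 * (j * ε) * ‖b (w.s i)‖ ^ 2) =
        (1 - (j * ε) ^ 2) * (∑ i, w.p i * ‖E.starProjection (b (w.s i))‖ ^ 2) -
          2 * (j * ε) * ∑ i, w.p i * ‖b (w.s i)‖ ^ 2 := by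
      rw [Finset.mul_sum, Finset.mul_sum, ← Finset.sum_sub_distrib]
      refine Finset.sum_congr rfl fun i _ => ?_
      ring
    rw [h2, hM2] at h1
    have h3 : ((j : ℝ) * ε) ^ 2 ≤ 1 / 10000 := by nlinarith
    have h4 : (1 - 1 / 10000) * (7 / 10 : ℝ) ≤
        (1 - (j * ε) ^ 2) * (∑ i, w.p i * ‖E.starProjection (b (w.s i))‖ ^ 2) :=
      mul_le_mul (by linarith) hen (by norm_num) (by linarith)
    linarith
  -- one step
  have hstep : ∀ j : ℕ, j ≤ m → w.mean j (fun g => ‖E.starProjection (b g)‖ ^ 2) + 1 / 2 ≤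
      w.mean (j + 1) (fun g => ‖E.starProjection (b g)‖ ^ 2) := by
    intro j hj
    rw [w.mean_succ']
    have h1 : ∀ g ∈ ball w.X j, ‖E.starProjection (b g)‖ ^ 2 + (67 / 100 + (-(2 * ‖c‖)) * ‖b g‖) ≤
        ∑ i, w.p i • ‖E.starProjection (b (g * w.s i))‖ ^ 2 := by
      intro g hg
      have h2 : ∑ i, w.p i • ‖E.starProjection (b (g * w.s i))‖ ^ 2 =
          ‖E.starProjection (b g)‖ ^ 2 + 2 * ⟪E.starProjection (b g), π g c⟫_ℝ +
            ∑ i, w.p i * ‖E.starProjection (π g (b (w.s i)))‖ ^ 2 := by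
        have h3 : ∀ i, w.p i • ‖E.starProjection (b (g * w.s i))‖ ^ 2 =
            w.p i * ‖E.starProjection (b g)‖ ^ 2 +
            2 * (w.p i * ⟪E.starProjection (b g), π g (b (w.s i))⟫_ℝ) +
            w.p i * ‖E.starProjection (π g (b (w.s i)))‖ ^ 2 := by
          intro i
          rw [hb, coc_mul, ← hb, map_add, norm_add_sq_real, smul_eq_mul]
          have h4 : ⟪E.starProjection (b g), E.starProjection (π g (b (w.s i)))⟫_ℝ =
              ⟪E.starProjection (b g), π g (b (w.s i))⟫_ℝ := by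
            rw [real_inner_comm, inner_P E _ _ (E.starProjection_apply_mem _), real_inner_comm]
          rw [h4]
          ring
        simp only [h3, Finset.sum_add_distrib]
        rw [← Finset.sum_mul, w.p_sum, one_mul, ← Finset.mul_sum]
        congr 3
        rw [hc, map_sum, inner_sum]
        refine Finset.sum_congr rfl fun i _ => ?_
        rw [map_smul, inner_smul_right]
      rw [h2]
      have h5 := hgain j hj g hg
      have h6 := (abs_le.1 (abs_real_inner_le_norm (E.starProjection (b g)) (π g c))).1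
      rw [norm_rep] at h6
      have h7 : ‖E.starProjection (b g)‖ * ‖c‖ ≤ ‖b g‖ * ‖c‖ :=
        mul_le_mul_of_nonneg_right (norm_P_le E _) (norm_nonneg _)
      linarith
    have h2 := w.mean_mono h1
    rw [w.mean_add, w.mean_add, w.mean_const, w.mean_const_mul] at h2
    set A : ℝ := w.mean j (fun g => ‖b g‖) with hA
    have hA0 : 0 ≤ A := w.mean_nonneg fun g _ => norm_nonneg _
    have hA2 : A ^ 2 ≤ j := (w.mean_sq_le j (fun g => ‖b g‖)).trans (hM4 j)
    have h3 : ‖c‖ * A ≤ 1 / 40 := by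
      have h4 : (‖c‖ * A) ^ 2 ≤ (1 / 40) ^ 2 := by
        rw [mul_pow]
        have h5 : ‖c‖ ^ 2 * A ^ 2 ≤ (τ / 2) * j :=
          mul_le_mul hM3 hA2 (sq_nonneg _) (by positivity)
        have h6 : (j : ℝ) * τ ≤ m * τ := mul_le_mul_of_nonneg_right (by exact_mod_cast hj) hτ
        nlinarith
      exact (pow_le_pow_iff_left₀ (by positivity) (by norm_num) two_ne_zero).1 h4
    linarith
  -- induction
  have hind : ∀ j : ℕ, j ≤ m → (j : ℝ) / 2 ≤ w.mean j (fun g => ‖E.starProjection (b g)‖ ^ 2) := by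
    intro j
    induction j with
    | zero =>
      intro _
      rw [w.mean_zero]
      simp only [CharP.cast_eq_zero, zero_div]
      positivity
    | succ j ih =>
      intro hj
      have h1 := ih (by omega)
      have h2 := hstep j (by omega)
      push_cast
      linarith
  exact hind m le_rfl

end Pool.Agent.Helper94.ST
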