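import Pool.Agent.Helper5.ST.GoalsA

/-! Packet INVT: the covariance form at time `n` is almost invariant. -/

set_option autoImplicit false

namespace Pool.Agent.Helper94.ST

open Pool.Agent.Helper5.Gap Pool.Agent.Helper5.ST Pool.Agent.Helper5.ST.Walk
open scoped InnerProductSpace

universe u

section

variable {G : Type u} [Group G] (w : Walk G)

theorem hel_nonneg (n : ℕ) (i : w.I) : 0 ≤ w.hel n i := Finset.sum_nonneg fun _ _ => sq_nonneg _

theorem Hel_nonneg (n : ℕ) : 0 ≤ w.Hel n :=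
  Finset.sum_nonneg fun i _ => mul_nonneg (w.p_nonneg i) (hel_nonneg w n i)

theorem p_hel_le (n : ℕ) (i : w.I) : w.p i * w.hel n i ≤ w.Hel n :=
  Finset.single_le_sum (f := fun i => w.p i * w.hel n i)
    (fun j _ => mul_nonneg (w.p_nonneg j) (hel_nonneg w n j)) (Finset.mem_univ i)

theorem hel_le (n : ℕ) (i : w.I) : w.hel n i ≤ 4 * w.k * w.Hel n := by
  have h1 := p_hel_le w n i
  have h2 := w.p_low i
  have hk := w.k_pos
  have h3 : 1 / (4 * w.k) * w.hel n i ≤ w.Hel n :=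
    (mul_le_mul_of_nonneg_right h2 (hel_nonneg w n i)).trans h1
  calc w.hel n i = 4 * w.k * (1 / (4 * w.k) * w.hel n i) := by field_simp
    _ ≤ 4 * w.k * w.Hel n := mul_le_mul_of_nonneg_left h3 (by positivity)

theorem hel_le' (n : ℕ) : w.hel n w.i₀ ≤ 2 * w.Hel n := by
  have h1 := p_hel_le w n w.i₀
  have h2 := mul_le_mul_of_nonneg_right w.p_i₀ (hel_nonneg w n w.i₀)
  linarith

theorem sum_sqrt_le (n : ℕ) (j : w.I) :
    ∑ g ∈ w.B (n + 1), (√(w.mu n ((w.s j)⁻¹ * g)) - √(w.mu n g)) ^ 2 ≤ 12 * w.k * w.Hel n := by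
  have h1 : ∑ g ∈ w.B (n + 1), (√(w.mu n ((w.s j)⁻¹ * g)) - √(w.mu n g)) ^ 2 ≤
      ∑ g ∈ w.B (n + 1), (2 * (√(w.mu n ((w.s j)⁻¹ * g)) - √(w.mu (n + 1) g)) ^ 2 +
        2 * (√(w.mu n ((w.s w.i₀)⁻¹ * g)) - √(w.mu (n + 1) g)) ^ 2) := by
    refine Finset.sum_le_sum fun g _ => ?_
    rw [w.s_i₀, inv_one, one_mul]
    nlinarith [sq_nonneg ((√(w.mu n ((w.s j)⁻¹ * g)) - √(w.mu (n + 1) g)) +
      (√(w.mu n g) - √(w.mu (n + 1) g)))]
  rw [Finset.sum_add_distrib, ← Finset.mul_sum, ← Finset.mul_sum] at h1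
  have h2 : ∑ g ∈ w.B (n + 1), (√(w.mu n ((w.s j)⁻¹ * g)) - √(w.mu (n + 1) g)) ^ 2 =
    w.hel n j := rfl
  have h3 : ∑ g ∈ w.B (n + 1), (√(w.mu n ((w.s w.i₀)⁻¹ * g)) - √(w.mu (n + 1) g)) ^ 2 =
    w.hel n w.i₀ := rfl
  rw [h2, h3] at h1
  have h4 := hel_le w n j
  have h5 := hel_le' w n
  have h6 : w.Hel n ≤ w.k * w.Hel n := le_mul_of_one_le_left (Hel_nonneg w n) w.k1
  linarith

end

set_option maxHeartbeats 1000000 in
theorem invt (hCS : Pool.Agent.Helper5.ST.SHelCS.{u}) (hMom : Pool.Agent.Helper5.ST.SMom.{u}) :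
    Pool.Agent.Helper5.ST.SInvt.{u} := by
  intro G _ w V _ _ π ξ τ hτ hξ n d hd hn hnτ hkn hH i u
  obtain ⟨hM1, -, -, hM4, hM5⟩ := hMom G w V π ξ τ hτ hξ
  set b := coc π ξ with hb
  have hM4' := hM4 n
  have hM5' := hM5 n hnτ
  have hk := w.k1
  have hk0 : 0 < w.k := w.k_pos
  have hnR : (1 : ℝ) ≤ n := by exact_mod_cast hn
  set U : ℝ := ‖u‖ ^ 2 with hU
  have hU0 : 0 ≤ U := sq_nonneg _
  set j := w.inv i with hj
  set bj : V := b (w.s j) with hbj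
  have hbj4 : ‖bj‖ ^ 2 ≤ 4 * w.k := hM1 j
  set R : ℝ := √(d * n) with hR
  have hR2 : R ^ 2 = d * n := Real.sq_sqrt (by positivity)
  have hR0 : 0 ≤ R := Real.sqrt_nonneg _
  have hR1 : 1 ≤ R := by
    rw [hR, Real.one_le_sqrt]
    nlinarith
  -- the form
  have hform : ∀ g, ⟪b g, π (w.s i) u⟫_ℝ = ⟪b (w.s j * g), u⟫_ℝ - ⟪bj, u⟫_ℝ := by
    intro g
    have h1 : b (w.s j * g) = bj + π (w.s j) (b g) := coc_mul π ξ (w.s j) g
    rw [h1, inner_add_left, add_sub_cancel_left, inner_rep_left, hj, w.s_inv, _root_.inv_inv]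
  set β : ℝ := ⟪bj, u⟫_ℝ with hβ
  have hβ2 : β ^ 2 ≤ 4 * w.k * U := by
    have h1 := abs_real_inner_le_norm bj u
    have h2 : β ^ 2 ≤ (‖bj‖ * ‖u‖) ^ 2 := by
      rw [← sq_abs]
      exact pow_le_pow_left₀ (abs_nonneg _) h1 2
    rw [mul_pow] at h2
    exact h2.trans (mul_le_mul_of_nonneg_right hbj4 hU0)
  set f : G → ℝ := fun g => ⟪b g, u⟫_ℝ ^ 2 with hf
  set A1 : ℝ := w.mean n (fun g => f (w.s j * g)) with hA1
  set A0 : ℝ := w.mean n f with hA0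
  set M : ℝ := w.mean n (fun g => ⟪b (w.s j * g), u⟫_ℝ) with hM
  have hdiff : w.mean n (fun g => ⟪b g, π (w.s i) u⟫_ℝ ^ 2) = A1 - 2 * β * M + β ^ 2 := by
    have h1 : (fun g => ⟪b g, π (w.s i) u⟫_ℝ ^ 2) = fun g =>
        (f (w.s j * g) + (-(2 * β)) * ⟪b (w.s j * g), u⟫_ℝ) + β ^ 2 := by
      funext g
      rw [hform, hf]
      ring
    rw [h1, w.mean_add, w.mean_add, w.mean_const, w.mean_const_mul]
    ring
  -- norms of the translated cocycle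
  have hnorm : ∀ g, ‖b (w.s j * g)‖ ≤ ‖bj‖ + ‖b g‖ := by
    intro g
    have h1 : b (w.s j * g) = bj + π (w.s j) (b g) := coc_mul π ξ (w.s j) g
    rw [h1]
    refine (norm_add_le _ _).trans ?_
    rw [norm_rep]
  have hn2 : w.mean n (fun g => ‖b (w.s j * g)‖ ^ 2) ≤ 10 * n := by
    have h1 : w.mean n (fun g => ‖b (w.s j * g)‖ ^ 2) ≤
        w.mean n (fun g => 2 * ‖bj‖ ^ 2 + 2 * ‖b g‖ ^ 2) := by
      apply w.mean_mono
      intro g _
      have h2 := pow_le_pow_left₀ (norm_nonneg _) (hnorm g) 2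
      nlinarith [sq_nonneg (‖bj‖ - ‖b g‖)]
    rw [w.mean_add, w.mean_const, w.mean_const_mul] at h1
    linarith
  have hn4 : w.mean n (fun g => ‖b (w.s j * g)‖ ^ 4) ≤ 8 * (16 * w.k ^ 2 + 80 * w.k * n ^ 2) := by
    have h1 : w.mean n (fun g => ‖b (w.s j * g)‖ ^ 4) ≤
        w.mean n (fun g => 8 * ‖bj‖ ^ 4 + 8 * ‖b g‖ ^ 4) := by
      apply w.mean_mono
      intro g _
      have h2 := pow_le_pow_left₀ (norm_nonneg _) (hnorm g) 4
      have h3 : (‖bj‖ + ‖b g‖) ^ 2 ≤ 2 * (‖bj‖ ^ 2 + ‖b g‖ ^ 2) := by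
        nlinarith [sq_nonneg (‖bj‖ - ‖b g‖)]
      have h4 : ((‖bj‖ + ‖b g‖) ^ 2) ^ 2 ≤ (2 * (‖bj‖ ^ 2 + ‖b g‖ ^ 2)) ^ 2 :=
        pow_le_pow_left₀ (sq_nonneg _) h3 2
      nlinarith [sq_nonneg (‖bj‖ ^ 2 - ‖b g‖ ^ 2)]
    rw [w.mean_add, w.mean_const, w.mean_const_mul] at h1
    have h2 : ‖bj‖ ^ 4 ≤ 16 * w.k ^ 2 := by
      have h3 : (‖bj‖ ^ 2) ^ 2 ≤ (4 * w.k) ^ 2 := pow_le_pow_left₀ (sq_nonneg _) hbj4 2
      nlinarith
    linarith
  -- first term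
  have hfirst : |A1 - A0| ≤ 143 * w.k * R * U := by
    have hBsub : w.B n ⊆ w.B (n + 1) := w.B_mono (Nat.le_succ n)
    have h1 : A1 - A0 = ∑ g ∈ w.B (n + 1), (w.mu n ((w.s j)⁻¹ * g) - w.mu n g) * f g := by
      rw [hA1, hA0, w.mean_translate f j (Finset.Subset.refl _), w.mean_eq_sum f hBsub,
        ← Finset.sum_sub_distrib]
      refine Finset.sum_congr rfl fun g _ => ?_
      simp only [smul_eq_mul]
      ring
    have h2 := hCS G (w.B (n + 1)) (fun g => w.mu n ((w.s j)⁻¹ * g)) (fun g => w.mu n g) f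
      (fun g _ => w.mu_nonneg n _) (fun g _ => w.mu_nonneg n _)
    rw [← h1] at h2
    have h3 := sum_sqrt_le w n j
    have h4 : ∑ g ∈ w.B (n + 1), (w.mu n ((w.s j)⁻¹ * g) + w.mu n g) * f g ^ 2 =
        w.mean n (fun g => f (w.s j * g) ^ 2) + w.mean n (fun g => f g ^ 2) := by
      have h5 := w.mean_translate (n := n) (fun g => f g ^ 2) j (Finset.Subset.refl (w.B (n + 1)))
      rw [h5, w.mean_eq_sum (fun g => f g ^ 2) hBsub, ← Finset.sum_add_distrib]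
      refine Finset.sum_congr rfl fun g _ => ?_
      simp only [smul_eq_mul]
      ring
    have hfu : ∀ g, f g ^ 2 ≤ ‖b g‖ ^ 4 * U ^ 2 := by
      intro g
      have h5 := abs_real_inner_le_norm (b g) u
      have h6 : ⟪b g, u⟫_ℝ ^ 2 ≤ (‖b g‖ * ‖u‖) ^ 2 := by
        rw [← sq_abs]
        exact pow_le_pow_left₀ (abs_nonneg _) h5 2
      have h7 : (⟪b g, u⟫_ℝ ^ 2) ^ 2 ≤ ((‖b g‖ * ‖u‖) ^ 2) ^ 2 :=
        pow_le_pow_left₀ (sq_nonneg _) h6 2
      have h8 : ((‖b g‖ * ‖u‖) ^ 2) ^ 2 = ‖b g‖ ^ 4 * U ^ 2 := by rw [hU]; ring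
      rw [← h8]
      exact h7
    have h5 : w.mean n (fun g => f (w.s j * g) ^ 2) ≤
        8 * (16 * w.k ^ 2 + 80 * w.k * n ^ 2) * U ^ 2 := by
      have h6 : w.mean n (fun g => f (w.s j * g) ^ 2) ≤
          w.mean n (fun g => ‖b (w.s j * g)‖ ^ 4 * U ^ 2) := w.mean_mono fun g _ => hfu _
      rw [w.mean_mul_const] at h6
      exact h6.trans (mul_le_mul_of_nonneg_right hn4 (sq_nonneg _))
    have h6 : w.mean n (fun g => f g ^ 2) ≤ 80 * w.k * n ^ 2 * U ^ 2 := by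
      have h7 : w.mean n (fun g => f g ^ 2) ≤ w.mean n (fun g => ‖b g‖ ^ 4 * U ^ 2) :=
        w.mean_mono fun g _ => hfu _
      rw [w.mean_mul_const] at h7
      exact h7.trans (mul_le_mul_of_nonneg_right hM5' (sq_nonneg _))
    have hkn2 : w.k ^ 2 ≤ w.k * n ^ 2 := by
      have h7 : w.k * w.k ≤ w.k * n := mul_le_mul_of_nonneg_left hkn hk0.le
      have h8 : (n : ℝ) ≤ n ^ 2 := by nlinarith
      have h9 : w.k * n ≤ w.k * n ^ 2 := mul_le_mul_of_nonneg_left h8 hk0.le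
      nlinarith
    have h7 : 2 * ∑ g ∈ w.B (n + 1), (w.mu n ((w.s j)⁻¹ * g) + w.mu n g) * f g ^ 2 ≤
        1696 * (w.k * n ^ 2) * U ^ 2 := by
      rw [h4]
      have hU2 : 0 ≤ U ^ 2 := sq_nonneg _
      have h8 : w.k ^ 2 * U ^ 2 ≤ w.k * n ^ 2 * U ^ 2 := mul_le_mul_of_nonneg_right hkn2 hU2
      nlinarith
    have h8 : (A1 - A0) ^ 2 ≤ (12 * w.k * w.Hel n) * (1696 * (w.k * n ^ 2) * U ^ 2) := by
      refine h2.trans (mul_le_mul h3 h7 ?_ ?_)
      · apply mul_nonneg (by norm_num)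
        refine Finset.sum_nonneg fun g _ => mul_nonneg (add_nonneg (w.mu_nonneg n _)
          (w.mu_nonneg n _)) (sq_nonneg _)
      · have := Hel_nonneg w n
        positivity
    have h9 : (12 * w.k * w.Hel n) * (1696 * (w.k * n ^ 2) * U ^ 2) ≤
        (143 * w.k * R * U) ^ 2 := by
      have e1 : (12 * w.k * w.Hel n) * (1696 * (w.k * n ^ 2) * U ^ 2) =
          20352 * (w.k ^ 2 * U ^ 2 * n) * (n * w.Hel n) := by ring
      have e2 : (143 * w.k * R * U) ^ 2 = 20449 * (w.k ^ 2 * U ^ 2 * n) * d := by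
        have : (143 * w.k * R * U) ^ 2 = 20449 * (w.k ^ 2 * U ^ 2) * R ^ 2 := by ring
        rw [this, hR2]
        ring
      rw [e1, e2]
      have h10 : 0 ≤ w.k ^ 2 * U ^ 2 * n := by positivity
      have h11 : 20352 * (w.k ^ 2 * U ^ 2 * n) * (n * w.Hel n) ≤
          20352 * (w.k ^ 2 * U ^ 2 * n) * d :=
        mul_le_mul_of_nonneg_left hH (by positivity)
      nlinarith
    exact abs_le_of_sq_le_sq (h8.trans h9) (by positivity)
  -- second term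
  have hM2 : M ^ 2 ≤ 10 * n * U := by
    have h1 := w.mean_sq_le n (fun g => ⟪b (w.s j * g), u⟫_ℝ)
    refine h1.trans ?_
    have h2 : w.mean n (fun g => ⟪b (w.s j * g), u⟫_ℝ ^ 2) ≤
        w.mean n (fun g => ‖b (w.s j * g)‖ ^ 2 * U) := by
      apply w.mean_mono
      intro g _
      have h5 := abs_real_inner_le_norm (b (w.s j * g)) u
      have h6 : ⟪b (w.s j * g), u⟫_ℝ ^ 2 ≤ (‖b (w.s j * g)‖ * ‖u‖) ^ 2 := by
        rw [← sq_abs]
        exact pow_le_pow_left₀ (abs_nonneg _) h5 2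
      rw [mul_pow] at h6
      exact h6
    rw [w.mean_mul_const] at h2
    exact h2.trans (mul_le_mul_of_nonneg_right hn2 hU0)
  have hsecond : |2 * β * M| ≤ 13 * w.k * R * U := by
    have h1 : (2 * β * M) ^ 2 ≤ (13 * w.k * R * U) ^ 2 := by
      have e1 : (2 * β * M) ^ 2 = 4 * (β ^ 2 * M ^ 2) := by ring
      have e2 : (13 * w.k * R * U) ^ 2 = 169 * (w.k ^ 2 * (d * n)) * U ^ 2 := by
        have : (13 * w.k * R * U) ^ 2 = 169 * (w.k ^ 2 * R ^ 2) * U ^ 2 := by ring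
        rw [this, hR2]
      rw [e1, e2]
      have h2 : β ^ 2 * M ^ 2 ≤ (4 * w.k * U) * (10 * n * U) :=
        mul_le_mul hβ2 hM2 (sq_nonneg _) (by positivity)
      have h3 : w.k * n ≤ w.k ^ 2 * (d * n) := by
        have h4 : w.k ≤ w.k ^ 2 := by nlinarith
        have h5 : (n : ℝ) ≤ d * n := le_mul_of_one_le_left (by positivity) hd
        exact mul_le_mul h4 h5 (by positivity) (by positivity)
      have h4 : w.k * n * U ^ 2 ≤ w.k ^ 2 * (d * n) * U ^ 2 :=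
        mul_le_mul_of_nonneg_right h3 (sq_nonneg _)
      have h5 : 0 ≤ w.k ^ 2 * (d * n) * U ^ 2 := by positivity
      nlinarith
    exact abs_le_of_sq_le_sq h1 (by positivity)
  -- third term
  have hthird : β ^ 2 ≤ 4 * w.k * R * U := by
    refine hβ2.trans ?_
    have : 4 * w.k * U ≤ 4 * w.k * U * R := le_mul_of_one_le_right (by positivity) hR1
    linarith
  rw [hdiff]
  have e1 : A1 - 2 * β * M + β ^ 2 - A0 = (A1 - A0) - 2 * β * M + β ^ 2 := by ring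
  have h0 : 0 ≤ w.k * R * U := by positivity
  have hsq := sq_nonneg β
  rw [abs_le] at hfirst hsecond ⊢
  constructor <;> linarith [hfirst.1, hfirst.2, hsecond.1, hsecond.2]

end Pool.Agent.Helper94.ST
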