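import Pool.Agent.Helper94.ST.Gr

/-! Packet PATH: many separated points. -/

set_option autoImplicit false

namespace Pool.Agent.Helper94.ST

open Pool.Agent.Helper5.Gap Pool.Agent.Helper5.ST Pool.Agent.Helper5.ST.Walk
open scoped InnerProductSpace

universe u

theorem exists_times (F : ℕ → ℝ) (β : ℝ) (hβ : 0 < β) (h0 : F 0 = 0)
    (hF : ∀ j, F (j + 1) ≤ F j + β) (L q : ℕ) (hL : 2 * q * β ≤ F L) :
    ∃ φ : ℕ → ℕ, ∀ i, i < q → 2 * i * β ≤ F (φ i) ∧ F (φ i) ≤ (2 * i + 1) * β := by
  classical
  have key : ∀ i, i < q → ∃ j, 2 * i * β ≤ F j ∧ F j ≤ (2 * i + 1) * β := by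
    intro i hi
    have hex : ∃ j, 2 * (i : ℝ) * β ≤ F j := by
      refine ⟨L, le_trans ?_ hL⟩
      have : (i : ℝ) ≤ q := by exact_mod_cast hi.le
      gcongr
    refine ⟨Nat.find hex, Nat.find_spec hex, ?_⟩
    rcases h : Nat.find hex with _ | j
    · rw [h0]; positivity
    · have h1 := Nat.find_min hex (m := j) (by omega)
      rw [not_le] at h1
      have h2 := hF j
      linarith
  choose! φ hφ using key
  exact ⟨φ, hφ⟩

theorem path : Pool.Agent.Helper5.ST.SPath.{u} := by
  classical
  intro G _ w V _ _ π b E _ β hβ hcoc hb m q hq hm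
  -- a good point
  obtain ⟨g, hg, hgmax⟩ := Finset.exists_max_image (w.B m)
    (fun g => ‖E.starProjection (b g)‖ ^ 2) ⟨1, w.mem_B.2 (one_mem_ball m)⟩
  have hgm : (m : ℝ) / 2 ≤ ‖E.starProjection (b g)‖ ^ 2 :=
    hm.trans (w.mean_le_const fun g' hg' => hgmax g' (w.mem_B.2 hg'))
  rw [w.mem_B] at hg
  obtain ⟨l, hl, hlx, hlg⟩ := hg
  have hb1 : b 1 = 0 := by
    have := hcoc 1 1
    rw [mul_one, rep_one] at this
    simpa using this
  set F : ℕ → ℝ := fun j => ‖E.starProjection (b (l.take j).prod)‖ with hF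
  have hF0 : F 0 = 0 := by
    rw [hF]
    simp [hb1]
  have hFs : ∀ j, F (j + 1) ≤ F j + β := by
    intro j
    rw [hF]
    simp only
    rcases lt_or_ge j l.length with hj | hj
    · obtain ⟨i, hi⟩ := letter w (hlx _ (List.getElem_mem hj))
      rw [List.prod_take_succ l j hj, hcoc, map_add]
      refine (norm_add_le _ _).trans (add_le_add_right ?_ _)
      refine (norm_P_le E _).trans ?_
      rw [norm_rep, hi]
      exact hb i
    · rw [List.take_of_length_le hj, List.take_of_length_le (by omega)]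
      linarith
  have hFL : 2 * q * β ≤ F l.length := by
    have h1 : F l.length = ‖E.starProjection (b g)‖ := by
      rw [hF]
      simp only [List.take_length]
      rw [hlg]
    rw [h1]
    have h2 : (2 * (q : ℝ) * β) ^ 2 ≤ ‖E.starProjection (b g)‖ ^ 2 := by
      refine le_trans ?_ hgm
      nlinarith
    exact (pow_le_pow_iff_left₀ (by positivity) (norm_nonneg _) two_ne_zero).1 h2
  obtain ⟨φ, hφ⟩ := exists_times F β hβ hF0 hFs l.length q hFL
  set t : ℕ → G := fun i => (l.take (φ i)).prod with ht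
  have hsep : ∀ i, i < q → ∀ j, j < q → i < j → β ≤ ‖E.starProjection (b (t j))‖ -
      ‖E.starProjection (b (t i))‖ := by
    intro i hi j hj hij
    have h1 := (hφ i hi).2
    have h2 := (hφ j hj).1
    have h3 : (i : ℝ) + 1 ≤ j := by exact_mod_cast hij
    have h4 : ((i : ℝ) + 1) * β ≤ j * β := mul_le_mul_of_nonneg_right h3 hβ.le
    have e1 : F (φ i) = ‖E.starProjection (b (t i))‖ := rfl
    have e2 : F (φ j) = ‖E.starProjection (b (t j))‖ := rfl
    rw [← e1, ← e2]
    nlinarith
  have hsep' : ∀ i, i < q → ∀ j, j < q → i ≠ j → β ≤ ‖E.starProjection (b (t i) - b (t j))‖ := by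
    intro i hi j hj hij
    rw [map_sub]
    rcases lt_or_gt_of_ne hij with h | h
    · refine (hsep i hi j hj h).trans ?_
      rw [norm_sub_rev]
      exact norm_sub_norm_le _ _
    · exact (hsep j hj i hi h).trans (norm_sub_norm_le _ _)
  have hinj : Set.InjOn t (Finset.range q : Set ℕ) := by
    intro i hi j hj hij
    by_contra hne
    have h1 := hsep' i (by simpa using hi) j (by simpa using hj) hne
    rw [hij, sub_self, map_zero, norm_zero] at h1
    linarith
  refine ⟨(Finset.range q).image t, ?_, ?_, ?_⟩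
  · rw [Finset.card_image_of_injOn hinj, Finset.card_range]
  · intro x hx
    obtain ⟨i, -, rfl⟩ := Finset.mem_image.1 hx
    exact ⟨l.take (φ i), (List.length_take_le' _ _).trans hl,
      fun y hy => hlx y (List.mem_of_mem_take hy), rfl⟩
  · intro x hx y hy hxy
    obtain ⟨i, hi, rfl⟩ := Finset.mem_image.1 hx
    obtain ⟨j, hj, rfl⟩ := Finset.mem_image.1 hy
    exact hsep' i (Finset.mem_range.1 hi) j (Finset.mem_range.1 hj) (fun h => hxy (by rw [h]))

end Pool.Agent.Helper94.ST
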