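import Pool.Agent.Helper5.ST.GoalsA

/-! Packet REG: the regular representation of an infinite group. -/

set_option autoImplicit false

namespace Pool.Agent.Helper94.ST

open scoped InnerProductSpace ENNReal

universe u

variable {G : Type u}

abbrev L2 (G : Type u) : Type u := lp (fun _ : G => ℝ) 2

theorem two_pos' : (0 : ℝ) < (2 : ℝ≥0∞).toReal := by norm_num

theorem memℓp_comp (e : G ≃ G) (f : L2 G) :
    Memℓp (fun x => (f : G → ℝ) (e x)) 2 := by
  have h := (memℓp_gen_iff two_pos').1 f.2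
  rw [memℓp_gen_iff two_pos']
  exact (Equiv.summable_iff e (f := fun i => ‖(f : G → ℝ) i‖ ^ (2 : ℝ≥0∞).toReal)).2 h

/-- Composition with a bijection. -/
noncomputable def re (e : G ≃ G) : L2 G ≃ₗᵢ[ℝ] L2 G where
  toFun f := ⟨fun x => (f : G → ℝ) (e x), memℓp_comp e f⟩
  invFun f := ⟨fun x => (f : G → ℝ) (e.symm x), memℓp_comp e.symm f⟩
  map_add' f g := rfl
  map_smul' c f := rfl
  left_inv f := by
    apply lp.ext
    funext x
    show (f : G → ℝ) (e (e.symm x)) = f x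
    rw [Equiv.apply_symm_apply]
  right_inv f := by
    apply lp.ext
    funext x
    show (f : G → ℝ) (e.symm (e x)) = f x
    rw [Equiv.symm_apply_apply]
  norm_map' f := by
    have h1 := lp.norm_rpow_eq_tsum (E := fun _ : G => ℝ) two_pos' f
    have h2 := lp.norm_rpow_eq_tsum (E := fun _ : G => ℝ) two_pos'
      (⟨fun x => (f : G → ℝ) (e x), memℓp_comp e f⟩ : L2 G)
    have h3 : ∑' i, ‖(f : G → ℝ) (e i)‖ ^ (2 : ℝ≥0∞).toReal =
        ∑' i, ‖(f : G → ℝ) i‖ ^ (2 : ℝ≥0∞).toReal :=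
      Equiv.tsum_eq e (fun i => ‖(f : G → ℝ) i‖ ^ (2 : ℝ≥0∞).toReal)
    have h4 : ‖(⟨fun x => (f : G → ℝ) (e x), memℓp_comp e f⟩ : L2 G)‖ ^ (2 : ℝ≥0∞).toReal =
        ‖f‖ ^ (2 : ℝ≥0∞).toReal := by
      rw [h1, h2]
      exact h3
    exact (Real.rpow_left_inj (norm_nonneg _) (norm_nonneg _) two_pos'.ne').1 h4

theorem re_apply (e : G ≃ G) (f : L2 G) (x : G) : (re e f : G → ℝ) x = (f : G → ℝ) (e x) := rfl

/-- The regular representation. -/
noncomputable def rp (G : Type u) [Group G] : G →* (L2 G ≃ₗᵢ[ℝ] L2 G) where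
  toFun g := re (Equiv.mulLeft g⁻¹)
  map_one' := by
    ext f x
    show (f : G → ℝ) (1⁻¹ * x) = f x
    simp
  map_mul' g h := by
    ext f x
    show (f : G → ℝ) ((g * h)⁻¹ * x) = (f : G → ℝ) (h⁻¹ * (g⁻¹ * x))
    rw [mul_inv_rev, mul_assoc]

theorem rp_apply [Group G] (g : G) (f : L2 G) (x : G) :
    (rp G g f : G → ℝ) x = (f : G → ℝ) (g⁻¹ * x) := rfl

theorem reg : Pool.Agent.Helper5.ST.SReg.{u} := by
  classical
  intro G _ _
  refine ⟨L2 G, inferInstance, inferInstance, inferInstance, rp G, lp.single 2 (1 : G) (1 : ℝ),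
    ?_, ?_, ?_⟩
  · rw [lp.norm_single (by norm_num)]
    norm_num
  · intro g hg
    rw [lp.inner_single_right, rp_apply, mul_one, lp.single_apply_ne]
    · simp
    · intro h
      exact hg (inv_eq_one.1 h)
  · intro v hv
    have h1 : ∀ g : G, (v : G → ℝ) g = (v : G → ℝ) 1 := by
      intro g
      have h2 := congrArg (fun f : L2 G => (f : G → ℝ) 1) (hv g⁻¹)
      simp only at h2
      rw [rp_apply, inv_inv, mul_one] at h2
      exact h2
    have h3 := (memℓp_gen_iff two_pos').1 v.2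
    have h4 : (fun i : G => ‖(v : G → ℝ) i‖ ^ (2 : ℝ≥0∞).toReal) =
        fun _ => ‖(v : G → ℝ) 1‖ ^ (2 : ℝ≥0∞).toReal := by
      funext i
      rw [h1 i]
    have h5 : Summable (fun _ : G => ‖(v : G → ℝ) 1‖ ^ (2 : ℝ≥0∞).toReal) := by
      rw [← h4]
      exact h3
    rw [summable_const_iff] at h5
    have h6 : (v : G → ℝ) 1 = 0 := by
      have := (Real.rpow_eq_zero (norm_nonneg _) two_pos'.ne').1 h5
      exact norm_eq_zero.1 this
    apply lp.ext
    funext x
    rw [h1 x, h6]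
    rfl

end Pool.Agent.Helper94.ST
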