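import Pool.Agent.Helper69.ST.GoalsW
import Pool.Agent.Helper69.ST.NU

/-!
# Project ST (MP_438009_an): goal `S_NA`, the numbers for small `κ`
-/

set_option autoImplicit false

namespace Pool.Agent.Helper94.ST.NA

open Pool.Agent.Helper69.ST

/-- `Good` at `D`. -/
theorem good_D (p k κ T D : ℝ) (hk : 54 ≤ k) (h0 : 0 ≤ κ) (h1 : κ ≤ 27 / 100)
    (hT : 14 / 25 * k * (1 + 93 / 100 * κ) ≤ T) (hD0 : 0 ≤ D) (hD1 : D ≤ k / 4)
    (hp : p ≤ D + (k + 1) / 2) : Good p κ T D := by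
  have hk0 : 0 ≤ k := by linarith
  have hT2 : k * (56 / 100 + 5208 / 10000 * κ) ≤ T := by
    calc k * (56 / 100 + 5208 / 10000 * κ) = 14 / 25 * k * (1 + 93 / 100 * κ) := by ring
      _ ≤ T := hT
  have hDκ : D * κ ≤ k / 4 * κ := mul_le_mul_of_nonneg_right hD1 h0
  have hkκ : 0 ≤ k * κ := mul_nonneg hk0 h0
  have a1 : k * (31 / 100 + 5208 / 10000 * κ) ≤ T - D := by
    have e : k * (31 / 100 + 5208 / 10000 * κ) = k * (56 / 100 + 5208 / 10000 * κ) - k / 4 := by ring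
    rw [e]; linarith
  have a2 : k * (507 / 10000 + 208 / 10000 * κ) ≤ T - p + D - 2 * D * κ := by
    have e : k * (507 / 10000 + 208 / 10000 * κ) =
      k * (56 / 100 + 5208 / 10000 * κ) - k * (5093 / 10000) - 2 * (k / 4 * κ) := by ring
    rw [e]
    linarith
  have b1 : 0 ≤ k * (31 / 100 + 5208 / 10000 * κ) := by positivity
  have b2 : 0 ≤ k * (507 / 10000 + 208 / 10000 * κ) := by positivity
  refine ⟨by linarith, by linarith, ?_⟩
  calc D ^ 2 * κ ≤ (k / 4) ^ 2 * κ :=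
        mul_le_mul_of_nonneg_right (pow_le_pow_left₀ hD0 hD1 2) h0
    _ = k ^ 2 * (κ / 16) := by ring
    _ ≤ k ^ 2 * ((31 / 100 + 5208 / 10000 * κ) * (507 / 10000 + 208 / 10000 * κ)) := by
        refine mul_le_mul_of_nonneg_left ?_ (sq_nonneg k)
        nlinarith [mul_nonneg h0 h0]
    _ = k * (31 / 100 + 5208 / 10000 * κ) * (k * (507 / 10000 + 208 / 10000 * κ)) := by ring
    _ ≤ (T - D) * (T - p + D - 2 * D * κ) := mul_le_mul a1 a2 b2 (b1.trans a1)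

theorem half_na (κ : ℝ) (h0 : 0 ≤ κ) (h1 : κ ≤ 27 / 100) :
    1 / 2 + κ ≤ 56 / 75 * (1 + 93 / 100 * κ) ∧
    κ / 4 ≤ (56 / 75 * (1 + 93 / 100 * κ) - 1 / 2) * (56 / 75 * (1 + 93 / 100 * κ) - 1 / 2 - κ) := by
  constructor
  · linarith
  · nlinarith [mul_nonneg h0 (by linarith : 0 ≤ 27 / 100 - κ)]

theorem t : S_NA := by
  intro p k κ T hp h43 h32 h0 h1 hT
  have hk54 : 54 ≤ k := by omega
  have hkR : (54 : ℝ) ≤ k := by exact_mod_cast hk54
  have hpR : (40 : ℝ) ≤ p := by exact_mod_cast hp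
  have h43R : 4 * (p : ℝ) ≤ 3 * k := by exact_mod_cast h43
  set Λ := Finset.Icc (-(((p - 1) / 2 : ℕ) : ℤ)) ((p / 2 : ℕ) : ℤ) with hΛ
  have hΛc : Λ.card = p := lam_card p (by omega)
  have hΛm : ∀ l ∈ Λ, -(p : ℤ) < 2 * l ∧ 2 * l ≤ p := by
    intro l hl
    rw [hΛ, Finset.mem_Icc] at hl
    omega
  have habs : ∀ l : ℤ, -(p : ℤ) < 2 * l → 2 * l ≤ p → |(l : ℝ)| ≤ p / 2 := by
    intro l h3 h4
    have h5 : 2 * |l| ≤ p := by
      rcases abs_cases l with h | h <;> omega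
    have h6 : (2 : ℝ) * |(l : ℝ)| ≤ p := by exact_mod_cast h5
    linarith
  obtain ⟨d, hd⟩ : ∃ d : ℕ, d = (2 * p - k) / 2 := ⟨_, rfl⟩
  have hd1 : 1 ≤ d := by omega
  have hd2 : 2 * d + k ≤ 2 * p := by omega
  have hd3 : 2 * p ≤ 2 * d + k + 1 := by omega
  have hd4 : 4 * d ≤ k := by omega
  have hd3R : 2 * (p : ℝ) ≤ 2 * d + k + 1 := by exact_mod_cast hd3
  have hd4R : 4 * (d : ℝ) ≤ k := by exact_mod_cast hd4
  have hG1 : Good p κ T d := good_D p k κ T d hkR h0 h1 hT (Nat.cast_nonneg _) (by linarith)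
    (by linarith)
  have hG2 : Good p κ T (p / 2) := by
    refine good_half p κ T (56 / 75 * (1 + 93 / 100 * κ)) (by linarith) h0 ?_ (half_na κ h0 h1).1
      (half_na κ h0 h1).2
    refine le_trans ?_ hT
    have e : (p : ℝ) * (56 / 75 * (1 + 93 / 100 * κ)) =
      14 / 25 * (4 * (p : ℝ) / 3) * (1 + 93 / 100 * κ) := by ring
    rw [e]
    refine mul_le_mul_of_nonneg_right ?_ (by linarith)
    linarith
  refine ⟨Λ \ Finset.Icc (1 - (d : ℤ)) (d - 1), ?_, ?_, ?_⟩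
  · intro l hl
    exact hΛm l (Finset.mem_sdiff.mp hl).1
  · have h5 := Finset.le_card_sdiff (Finset.Icc (1 - (d : ℤ)) (d - 1)) Λ
    rw [hΛc, Int.card_Icc] at h5
    omega
  · intro l hl
    obtain ⟨hl1, hl2⟩ := Finset.mem_sdiff.mp hl
    obtain ⟨h3, h4⟩ := hΛm l hl1
    refine good_between p κ _ d (p / 2) _ (by linarith) hG1 hG2 ?_ (habs l h3 h4)
    have h6 : (d : ℤ) ≤ |l| := by
      rw [Finset.mem_Icc, not_and_or] at hl2
      rcases abs_cases l with h | h <;> omega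
    exact_mod_cast h6

end Pool.Agent.Helper94.ST.NA
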